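import Mathlib
import Pool.Agent.H7.OPP.All

set_option autoImplicit false

namespace Pool.Agent.Results.MP_a0dfcb_an.UnitalOpposite

open scoped Matrix Matrix.Norms.L2Operator ComplexConjugate

/-- a square matrix over a star ring is positive: `M = Bᴴ B` (for a C*-algebra `A` these are the
positive elements of the C*-algebra `M_k(A)`) -/
def MatPos {A : Type} [NonUnitalSemiring A] [Star A] {k : ℕ} (M : Matrix (Fin k) (Fin k) A) : Prop :=
  ∃ B : Matrix (Fin k) (Fin k) A, M = Bᴴ * B

/-- completely positive maps -/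
def CompletelyPos {A B : Type} [NonUnitalSemiring A] [Star A] [NonUnitalSemiring B] [Star B]
    (φ : A → B) : Prop :=
  ∀ (k : ℕ) (M : Matrix (Fin k) (Fin k) A), MatPos M → MatPos (M.map φ)

/-- nuclear C*-algebras; the norm of `M_m(ℂ)` is the operator norm on the Hilbert space `ℂ^m` -/
def Nuclear (A : Type) [CStarAlgebra A] : Prop :=
  ∀ (F : Finset A) (ε : ℝ), 0 < ε →
    ∃ (m : ℕ) (φ : A →ₗ[ℂ] Matrix (Fin m) (Fin m) ℂ) (ψ : Matrix (Fin m) (Fin m) ℂ →ₗ[ℂ] A),
      CompletelyPos φ ∧ CompletelyPos ψ ∧ (∀ a, ‖φ a‖ ≤ ‖a‖) ∧ (∀ M, ‖ψ M‖ ≤ ‖M‖) ∧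
      ∀ a ∈ F, ‖ψ (φ a) - a‖ < ε

theorem cp_of {A B : Type} [NonUnitalSemiring A] [Star A] [NonUnitalSemiring B] [Star B]
    (φ : A → B)
    (h : ∀ k : ℕ, ∀ b : Fin k → Fin k → A, ∃ C : Fin k → Fin k → B,
      ∀ i j, φ (∑ l, star (b l i) * b l j) = ∑ l, star (C l i) * C l j) : CompletelyPos φ := by
  rintro k M ⟨b, rfl⟩
  obtain ⟨C, hC⟩ := h k b
  refine ⟨Matrix.of C, ?_⟩
  ext i j
  have h1 := hC i j
  simpa [Matrix.mul_apply, Matrix.conjTranspose_apply, Matrix.map_apply] using h1

theorem simple_of_closed {A : Type} [CStarAlgebra A] [Nontrivial A]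
    (h : ∀ I : TwoSidedIdeal A, IsClosed (I : Set A) → I = ⊥ ∨ I = ⊤) : IsSimpleRing A := by
  constructor
  refine { exists_pair_ne := ⟨⊥, ⊤, ?_⟩, eq_bot_or_eq_top := ?_ }
  · intro hbt
    have h1 : (1 : A) ∈ (⊤ : TwoSidedIdeal A) := trivial
    rw [← hbt, TwoSidedIdeal.mem_bot] at h1
    exact one_ne_zero h1
  · intro I
    have hz : (0 : A) ∈ closure (I : Set A) := subset_closure I.zero_mem
    have ha : ∀ {x y : A}, x ∈ closure (I : Set A) → y ∈ closure (I : Set A) →
        x + y ∈ closure (I : Set A) := fun hx hy =>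
      map_mem_closure₂ continuous_add hx hy (fun _ h1 _ h2 => I.add_mem h1 h2)
    have hn : ∀ {x : A}, x ∈ closure (I : Set A) → -x ∈ closure (I : Set A) := fun hx =>
      map_mem_closure continuous_neg hx (fun _ h1 => I.neg_mem h1)
    have hl : ∀ {x y : A}, y ∈ closure (I : Set A) → x * y ∈ closure (I : Set A) := fun {x y} hy =>
      map_mem_closure (f := fun z => x * z) (continuous_const.mul continuous_id) hy
        (fun _ h1 => I.mul_mem_left _ _ h1)
    have hr : ∀ {x y : A}, x ∈ closure (I : Set A) → x * y ∈ closure (I : Set A) := fun {x y} hx =>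
      map_mem_closure (f := fun z => z * y) (continuous_id.mul continuous_const) hx
        (fun _ h1 => I.mul_mem_right _ _ h1)
    obtain ⟨J, hJ⟩ : ∃ J : TwoSidedIdeal A, (J : Set A) = closure (I : Set A) := by
      refine ⟨TwoSidedIdeal.mk' (closure (I : Set A)) hz ha hn hl hr, ?_⟩
      ext x
      exact TwoSidedIdeal.mem_mk' _ hz ha hn hl hr x
    rcases h J (by rw [hJ]; exact isClosed_closure) with h0 | h1
    · left
      refine le_antisymm ?_ bot_le
      intro x hx
      have h2 : x ∈ (J : Set A) := by rw [hJ]; exact subset_closure hx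
      rw [h0] at h2
      exact h2
    · right
      have h2 : (1 : A) ∈ closure (I : Set A) := by
        rw [← hJ, h1]
        trivial
      rw [mem_closure_iff] at h2
      obtain ⟨u, hu, huI⟩ := h2 {x | IsUnit x} Units.isOpen isUnit_one
      obtain ⟨v, hv⟩ := hu
      rw [eq_top_iff]
      intro x _
      have h3 : x = x * (↑v⁻¹ : A) * u := by
        rw [← hv, mul_assoc, Units.inv_mul, mul_one]
      rw [h3]
      exact I.mul_mem_left _ _ huI

/-- There is a unital, separable, nuclear C*-algebra `A ≠ 0` which is simple even as a ring (no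
two-sided ideals other than `0` and `A`, closed or not) and which is not *-isomorphic to its
opposite algebra; also there is no conjugate-linear multiplicative star-preserving bijection
of `A`. -/
theorem result :
    ∃ (A : Type) (_ : CStarAlgebra A),
      Nontrivial A ∧ TopologicalSpace.SeparableSpace A ∧ Nuclear A ∧
      IsSimpleRing A ∧
      IsEmpty (A ≃⋆ₐ[ℂ] Aᵐᵒᵖ) ∧
      ¬ ∃ f : A ≃+* A, (∀ (c : ℂ) (a : A), f (c • a) = conj c • f a) ∧
        ∀ a : A, f (star a) = star (f a) := by
  have hno : ¬ Nonempty Pool.OPP.Anti := Pool.OPP.All.anti_all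
  have hnt : Nontrivial Pool.OPP.AA := by
    have : Nontrivial Pool.OPP.HH := by
      refine ⟨⟨Pool.OPP.bv (Pool.OPP.istar, ∅), 0, fun h => ?_⟩⟩
      have := congrArg (fun ξ : Pool.OPP.HH => (ξ : Pool.OPP.JI → ℂ) (Pool.OPP.istar, ∅)) h
      simp [Pool.OPP.bv] at this
    infer_instance
  refine ⟨Pool.OPP.AA, Pool.OPP.instAA, hnt, Pool.OPP.All.sep, ?_, ?_, ?_, ?_⟩
  · intro F ε hε
    obtain ⟨m, φ, ψ, h1, h2, h3, h4, h5⟩ := Pool.OPP.All.nuc F ε hε
    exact ⟨m, φ, ψ, cp_of _ h1, cp_of _ h2, h3, h4, h5⟩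
  · exact simple_of_closed Pool.OPP.All.sim
  · refine ⟨fun e => hno ⟨⟨{
      toFun := fun a => (e a).unop
      invFun := fun a => e.symm (MulOpposite.op a)
      map_add' := ?_
      map_smul' := ?_
      left_inv := ?_
      right_inv := ?_ }, ?_, ?_⟩⟩⟩
    · intro a b
      rw [map_add, MulOpposite.unop_add]
    · intro c a
      rw [map_smul, MulOpposite.unop_smul, RingHom.id_apply]
    · intro a
      show e.symm (MulOpposite.op (e a).unop) = a
      rw [MulOpposite.op_unop, StarAlgEquiv.symm_apply_apply]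
    · intro a
      show (e (e.symm (MulOpposite.op a))).unop = a
      rw [StarAlgEquiv.apply_symm_apply, MulOpposite.unop_op]
    · intro a b
      show (e (a * b)).unop = (e b).unop * (e a).unop
      rw [map_mul, MulOpposite.unop_mul]
    · intro a
      show (e (star a)).unop = star (e a).unop
      rw [map_star, MulOpposite.unop_star]
  · rintro ⟨f, hc, hs⟩
    refine hno ⟨⟨{
      toFun := fun a => star (f a)
      invFun := fun a => f.symm (star a)
      map_add' := ?_
      map_smul' := ?_
      left_inv := ?_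
      right_inv := ?_ }, ?_, ?_⟩⟩
    · intro a b
      rw [map_add, star_add]
    · intro c a
      rw [hc, star_smul, RingHom.id_apply]
      simp
    · intro a
      show f.symm (star (star (f a))) = a
      rw [star_star, RingEquiv.symm_apply_apply]
    · intro a
      show star (f (f.symm (star a))) = a
      rw [RingEquiv.apply_symm_apply, star_star]
    · intro a b
      show star (f (a * b)) = star (f b) * star (f a)
      rw [map_mul, star_mul]
    · intro a
      show star (f (star a)) = star (star (f a))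
      rw [hs]

end Pool.Agent.Results.MP_a0dfcb_an.UnitalOpposite
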